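import Pool.Agent.U152.HN.Alg

/-!
The ring of slopes.
-/

namespace Pool.Agent.U152.OP

open Polynomial Pool.Agent.U152.HN

/-- The group ring of `ℚ` over `ℤ`. -/
abbrev K0 := AddMonoidAlgebra ℤ ℚ

/-- The same modulo two. -/
abbrev K2 := AddMonoidAlgebra (ZMod 2) ℚ

/-- The sum of the group elements of a multiset. -/
noncomputable def mpoly (S : Multiset ℚ) : K0 :=
  (S.map fun a => AddMonoidAlgebra.single a (1 : ℤ)).sum

/-- The generating function of the multisets `S 0, ..., S n`. -/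
noncomputable def poly (n : ℕ) (S : ℕ → Multiset ℚ) : K0[X] :=
  ∑ i ∈ Finset.range (n + 1), C (mpoly (S i)) * X ^ i

/-- The Lefschetz class: degree 2, slope 1. -/
noncomputable def L : K0[X] := C (AddMonoidAlgebra.single (1 : ℚ) (1 : ℤ)) * X ^ 2

/-- `L + L ^ 2 + ... + L ^ m`. -/
noncomputable def LL (m : ℕ) : K0[X] := ∑ j ∈ Finset.range m, L ^ (j + 1)

/-- Multiplication by two on `ℚ`. -/
def dbl : ℚ →+ ℚ := AddMonoidHom.mulLeft 2

/-- `F(s, t) ↦ F(- s ^ 2, t ^ 2)`. -/
noncomputable def psi : K0[X] →+* K0[X] :=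
  eval₂RingHom ((C : K0 →+* K0[X]).comp (AddMonoidAlgebra.mapDomainRingHom ℤ dbl)) (- X ^ 2)

/-- Reduction modulo two. -/
noncomputable def red0 : K0 →+* K2 := AddMonoidAlgebra.mapRingHom ℚ (Int.castRingHom (ZMod 2))

/-- Reduction modulo two. -/
noncomputable def red : K0[X] →+* K2[X] := mapRingHom red0

lemma mpoly_coeff (S : Multiset ℚ) (a : ℚ) : (mpoly S).coeff a = (S.count a : ℤ) := by
  classical
  unfold mpoly
  induction S using Multiset.induction_on with
  | empty => simp
  | cons b S ih =>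
    rw [Multiset.map_cons, Multiset.sum_cons, AddMonoidAlgebra.coeff_add, Finsupp.add_apply, ih,
      AddMonoidAlgebra.coeff_single, Multiset.count_cons, Finsupp.single_apply]
    by_cases h : b = a
    · subst h
      simp [add_comm]
    · rw [if_neg h, if_neg (Ne.symm h)]
      simp

lemma poly_coeff (n : ℕ) (S : ℕ → Multiset ℚ) (i : ℕ) :
    (poly n S).coeff i = if i ≤ n then mpoly (S i) else 0 := by
  unfold poly
  rw [finsetSum_coeff]
  simp only [coeff_C_mul, coeff_X_pow, mul_ite, mul_one, mul_zero]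
  rw [Finset.sum_ite_eq (Finset.range (n + 1)) i]
  simp

lemma dvd0 (x : K0) : (2 : K0) ∣ x ↔ ∀ a, (2 : ℤ) ∣ x.coeff a := by
  constructor
  · rintro ⟨y, rfl⟩ a
    rw [two_mul, AddMonoidAlgebra.coeff_add, Finsupp.add_apply, ← two_mul]
    exact dvd_mul_right _ _
  · intro h
    refine ⟨AddMonoidAlgebra.ofCoeff (x.coeff.mapRange (fun z => z / 2) (by norm_num)), ?_⟩
    ext a
    rw [two_mul, AddMonoidAlgebra.coeff_add, Finsupp.add_apply, ← two_mul,
      AddMonoidAlgebra.coeff_ofCoeff, Finsupp.mapRange_apply]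
    exact (Int.mul_ediv_cancel' (h a)).symm

lemma dvdA (F : K0[X]) : (2 : K0[X]) ∣ F ↔ ∀ i, (2 : K0) ∣ F.coeff i := by
  have : (2 : K0[X]) = C (2 : K0) := (map_ofNat (C : K0 →+* K0[X]) 2).symm
  rw [this, C_dvd_iff_dvd_coeff]

lemma red0_eq_zero (x : K0) : red0 x = 0 ↔ (2 : K0) ∣ x := by
  rw [dvd0]
  constructor
  · intro h a
    have h1 : (red0 x).coeff a = 0 := by
      rw [h]
      simp
    unfold red0 at h1
    rw [AddMonoidAlgebra.coeff_mapRingHom] at h1
    exact (ZMod.intCast_zmod_eq_zero_iff_dvd _ _).1 h1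
  · intro h
    ext a
    unfold red0
    rw [AddMonoidAlgebra.coeff_mapRingHom]
    have := (ZMod.intCast_zmod_eq_zero_iff_dvd (x.coeff a) 2).2 (h a)
    simpa using this

lemma red_eq_zero (F : K0[X]) : red F = 0 ↔ (2 : K0[X]) ∣ F := by
  rw [dvdA]
  constructor
  · intro h i
    rw [← red0_eq_zero]
    have := congrArg (fun G => G.coeff i) h
    simpa [red] using this
  · intro h
    ext1 i
    rw [coeff_zero]
    show (mapRingHom red0 F).coeff i = 0
    rw [coe_mapRingHom, coeff_map]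
    exact (red0_eq_zero _).2 (h i)

lemma coeff_psi (F : K0[X]) (i : ℕ) :
    (psi F).coeff (2 * i) = (-1) ^ i * AddMonoidAlgebra.mapDomainRingHom ℤ dbl (F.coeff i) := by
  induction F using Polynomial.induction_on' with
  | add f g hf hg => rw [map_add, coeff_add, coeff_add, hf, hg, map_add, mul_add]
  | monomial n a =>
    have h1 : psi (monomial n a) =
        C (AddMonoidAlgebra.mapDomainRingHom ℤ dbl a * (-1) ^ n) * X ^ (2 * n) := by
      have h0 : (- X ^ 2 : K0[X]) ^ n = C ((-1) ^ n) * X ^ (2 * n) := by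
        rw [neg_pow (X ^ 2 : K0[X]), ← pow_mul, C_pow, C_neg, C_1]
      unfold psi
      rw [coe_eval₂RingHom, eval₂_monomial, h0, RingHom.comp_apply, ← mul_assoc, ← C_mul]
    rw [h1, coeff_C_mul, coeff_X_pow, coeff_monomial]
    by_cases h : n = i
    · subst h
      simp [mul_comm]
    · have h2 : ¬ 2 * i = 2 * n := fun h3 => h (by omega)
      simp [h, h2]

lemma dbl_injective : Function.Injective dbl := by
  intro a b h
  have : (2 : ℚ) * a = 2 * b := h
  linarith

lemma dvd_of_psi {F : K0[X]} (h : (2 : K0[X]) ∣ psi F) : (2 : K0[X]) ∣ F := by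
  rw [dvdA] at h ⊢
  intro i
  have h1 := h (2 * i)
  rw [coeff_psi] at h1
  have h2 : (2 : K0) ∣ AddMonoidAlgebra.mapDomainRingHom ℤ dbl (F.coeff i) := by
    have hu : IsUnit ((-1 : K0) ^ i) := (isUnit_neg_one (α := K0)).pow i
    exact hu.dvd_mul_left.1 h1
  rw [dvd0] at h2 ⊢
  intro a
  have h3 := h2 (dbl a)
  have h4 : (AddMonoidAlgebra.mapDomainRingHom ℤ dbl (F.coeff i)).coeff (dbl a) =
      (F.coeff i).coeff a := by
    rw [AddMonoidAlgebra.mapDomainRingHom_apply]
    exact Finsupp.mapDomain_apply dbl_injective _ _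
  rw [h4] at h3
  exact h3

lemma two_ne : (2 : K0[X]) ≠ 0 := by
  intro h
  have h1 := congrArg (fun G : K0[X] => (G.coeff 0).coeff 0) h
  have h2 : (2 : K0[X]) = C (AddMonoidAlgebra.single 0 2) := by
    rw [← map_ofNat (C : K0 →+* K0[X]) 2]
    rfl
  rw [h2] at h1
  simp at h1

/-- The value of a coefficient of a multiple of a power of two. -/
lemma coeff_dvd {k : ℕ} {F : K0[X]} (h : (2 : K0[X]) ^ k ∣ F) (i : ℕ) (a : ℚ) :
    (2 : ℤ) ^ k ∣ (F.coeff i).coeff a := by
  obtain ⟨G, rfl⟩ := h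
  have h1 : (2 : K0[X]) ^ k * G = (2 ^ k : ℕ) • G := by
    rw [nsmul_eq_mul]
    push_cast
    rfl
  rw [h1, coeff_smul, AddMonoidAlgebra.coeff_smul_apply, nsmul_eq_mul]
  push_cast
  exact dvd_mul_right _ _

/-- The reduction of the Lefschetz class. -/
noncomputable def l : K2[X] := C (AddMonoidAlgebra.single (1 : ℚ) (1 : ZMod 2)) * X ^ 2

lemma red_L : red L = l := by
  unfold red L l
  rw [coe_mapRingHom, Polynomial.map_mul, Polynomial.map_C, Polynomial.map_pow, Polynomial.map_X]
  congr 2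
  ext a
  unfold red0
  rw [AddMonoidAlgebra.coeff_mapRingHom, AddMonoidAlgebra.coeff_single,
    AddMonoidAlgebra.coeff_single, Finsupp.single_apply, Finsupp.single_apply]
  split_ifs <;> simp

lemma natDegree_l : l.natDegree = 2 := by
  unfold l
  refine natDegree_C_mul_X_pow _ _ ?_
  intro h
  have := congrArg (fun G : K2 => G.coeff 1) h
  simp at this

lemma l_ne : l ≠ 0 := by
  intro h
  have := natDegree_l
  rw [h] at this
  simp at this

lemma sub_mul_LL (m : ℕ) : (L - 1) * LL m = L ^ (m + 1) - L := by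
  unfold LL
  have h : ∑ j ∈ Finset.range m, L ^ (j + 1) = L * ∑ j ∈ Finset.range m, L ^ j := by
    rw [Finset.mul_sum]
    exact Finset.sum_congr rfl fun j _ => by rw [pow_succ, mul_comm]
  rw [h]
  have := mul_geom_sum L m
  linear_combination L * this

/-- Separation of two contributions. -/
lemma decode (a b : K2[X]) (α β m n : ℕ) (ha : a.natDegree ≤ 2 * α) (hb : b.natDegree ≤ 2 * β)
    (hne : m ≠ n) (hm : α + β + 1 ≤ m) (hn : α + β + 1 ≤ n)
    (h : a * red (LL m) + b * red (LL n) = 0) : a = 0 ∧ b = 0 := by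
  have e : ∀ k, (l - 1) * red (LL k) = l ^ (k + 1) - l := by
    intro k
    have := congrArg red (sub_mul_LL k)
    rw [map_mul, map_sub, map_sub, map_pow, red_L, map_one] at this
    exact this
  have h1 : a * l ^ (m + 1) + b * l ^ (n + 1) = (a + b) * l := by
    have h2 : (l - 1) * (a * red (LL m) + b * red (LL n)) = 0 := by rw [h, mul_zero]
    linear_combination h2 - a * e m - b * e n
  have hl : ∀ k, l ^ k = C (AddMonoidAlgebra.single (1 : ℚ) (1 : ZMod 2)) ^ k * X ^ (2 * k) := by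
    intro k
    unfold l
    rw [mul_pow, ← pow_mul]
  obtain ⟨r, hr1, hr2, hr3⟩ : ∃ r, r ≤ m ∧ r ≤ n ∧ α + β + 1 ≤ r :=
    ⟨min m n, min_le_left _ _, min_le_right _ _, le_min hm hn⟩
  have h3 : (X : K2[X]) ^ (2 * (r + 1)) ∣ (a + b) * l := by
    rw [← h1, hl, hl]
    refine dvd_add ?_ ?_
    · refine Dvd.dvd.mul_left (Dvd.dvd.mul_left (pow_dvd_pow _ (by omega)) _) _
    · refine Dvd.dvd.mul_left (Dvd.dvd.mul_left (pow_dvd_pow _ (by omega)) _) _
  have h4 : (a + b) * l = 0 := by
    refine eq_zero_of_dvd_of_natDegree_lt h3 ?_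
    rw [natDegree_X_pow]
    have h5 : (a + b).natDegree ≤ 2 * (α + β) :=
      (natDegree_add_le _ _).trans (max_le (by omega) (by omega))
    have h6 : ((a + b) * l).natDegree ≤ (a + b).natDegree + l.natDegree := natDegree_mul_le
    rw [natDegree_l] at h6
    omega
  have h7 : a + b = 0 := (mul_eq_zero.1 h4).resolve_right l_ne
  have h8 : b = - a := by linear_combination h7
  rw [h4, h8] at h1
  have h9 : a * (l ^ (m + 1) - l ^ (n + 1)) = 0 := by linear_combination h1
  have h10 : l ^ (m + 1) - l ^ (n + 1) ≠ 0 := by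
    intro h0
    have h11 := congrArg natDegree (sub_eq_zero.1 h0)
    rw [natDegree_pow, natDegree_pow, natDegree_l] at h11
    omega
  have h12 : a = 0 := (mul_eq_zero.1 h9).resolve_right h10
  exact ⟨h12, by rw [h8, h12, neg_zero]⟩

lemma red_one_add_L_ne : red (1 + L) ≠ 0 := by
  rw [map_add, map_one, red_L]
  intro h
  have h1 : l = -1 := by linear_combination h
  have h2 := congrArg natDegree h1
  rw [natDegree_l, natDegree_neg, natDegree_one] at h2
  omega

end Pool.Agent.U152.OP
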