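import Pool.Agent.U152.OP.Alg

/-!
Ordinary primes and congruences.
-/

namespace Pool.Agent.U152.OP

open Polynomial Pool.Agent.U152.HN

universe u v w

/-- Smooth projective geometrically connected varieties of positive dimension over a number field
`F`, the slopes of Frobenius and the Hodge numbers, some constructions; and arbitrary projective
varieties over `F` with their intersection cohomology.  Slopes are given as multisets. -/
structure SlopeTheory where
  /-- smooth projective geometrically connected varieties over `F` of positive dimension -/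
  V : Type u
  /-- the maximal ideals of the ring of integers -/
  Pl : Type v
  /-- the dimension -/
  dim : V → ℕ
  /-- `p` is prime to `ℓ` and all `H^i(X, ℚ_ℓ)` are unramified at `p` -/
  good : Pl → V → Prop
  /-- the slopes of Frobenius at `p` on `H^i` -/
  slopes : Pl → V → ℕ → Multiset ℚ
  /-- the Hodge slopes: `j` occurs `h^{j, i - j}` times -/
  hodge : V → ℕ → Multiset ℚ
  /-- `X × P^1` -/
  line : V → V
  /-- the Hilbert scheme of two points: the quotient by the involution of the blow-up of `X × X` in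
  the diagonal -/
  hilb : V → V
  /-- the blow-up of `P^N` in disjoint copies of `A` and `B` -/
  blow : ℕ → V → V → V
  /-- disjoint embeddings exist from this dimension on -/
  bound : V → V → ℕ
  slopes_zero : ∀ p X i, good p X → 2 * dim X < i → slopes p X i = 0
  hodge_zero : ∀ X i, 2 * dim X < i → hodge X i = 0
  card_slopes : ∀ p X i, good p X → (slopes p X i).card = (hodge X i).card
  dim_line : ∀ X, dim (line X) = dim X + 1
  good_line : ∀ p X, good p (line X) → good p X
  slopes_line : ∀ p X, good p (line X) → poly (2 * dim (line X)) (slopes p (line X)) =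
    poly (2 * dim X) (slopes p X) * (1 + L)
  hodge_line : ∀ X, poly (2 * dim (line X)) (hodge (line X)) =
    poly (2 * dim X) (hodge X) * (1 + L)
  good_hilb : ∀ p X, good p X → good p (hilb X)
  slopes_hilb : ∀ p X, good p X → 2 * poly (2 * dim (hilb X)) (slopes p (hilb X)) =
    poly (2 * dim X) (slopes p X) ^ 2 + psi (poly (2 * dim X) (slopes p X)) +
      2 * (LL (dim X - 1) * poly (2 * dim X) (slopes p X))
  hodge_hilb : ∀ X, 2 * poly (2 * dim (hilb X)) (hodge (hilb X)) =
    poly (2 * dim X) (hodge X) ^ 2 + psi (poly (2 * dim X) (hodge X)) +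
      2 * (LL (dim X - 1) * poly (2 * dim X) (hodge X))
  good_blow : ∀ p N A B, bound A B ≤ N → good p (blow N A B) → good p A ∧ good p B
  slopes_blow : ∀ p N A B, bound A B ≤ N → good p (blow N A B) →
    poly (2 * dim (blow N A B)) (slopes p (blow N A B)) =
      1 + LL N + poly (2 * dim A) (slopes p A) * LL (N - dim A - 1) +
        poly (2 * dim B) (slopes p B) * LL (N - dim B - 1)
  hodge_blow : ∀ N A B, bound A B ≤ N → poly (2 * dim (blow N A B)) (hodge (blow N A B)) =
      1 + LL N + poly (2 * dim A) (hodge A) * LL (N - dim A - 1) +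
        poly (2 * dim B) (hodge B) * LL (N - dim B - 1)
  /-- an elliptic curve with multiplicative reduction at given places -/
  bad : ∀ S : Set Pl, S.Finite → ∃ E, ∀ p ∈ S, ¬ good p E
  /-- arbitrary projective varieties over `F` -/
  P : Type w
  /-- `p` is prime to `ℓ` and `IH^n(Y, ℚ_ℓ)` is unramified at `p` -/
  ihGood : Pl → P → ℕ → Prop
  /-- the slopes of Frobenius at `p` on `IH^n` -/
  ihSlopes : Pl → P → ℕ → Multiset ℚ
  /-- the Hodge-Tate weights of `IH^n` -/
  ihHodge : P → ℕ → Multiset ℚ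
  /-- decomposition theorem for a resolution, and the Newton polygons of the summand and of its
  complement lie above the Hodge polygons (almost all places) -/
  resolution : ∀ Y, ∃ X, ∃ S : Set Pl, S.Finite ∧ ∀ p, p ∉ S → good p X →
    (∀ i, slopes p X i = hodge X i) → ∀ n, ihGood p Y n ∧ ihSlopes p Y n = ihHodge Y n

namespace SlopeTheory

variable (T : SlopeTheory.{u, v, w})

/-- Every smooth projective variety has ONE place at which all its cohomology groups are unramified
and the multiplicity of every slope in every degree is congruent to the multiplicity of the Hodge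
slope modulo `M`. -/
def CongruencePrime (M : ℕ) : Prop :=
  ∀ X, ∃ p, T.good p X ∧ ∀ i a, (T.slopes p X i).count a ≡ (T.hodge X i).count a [MOD M]

/-- For finitely many smooth projective varieties there are infinitely many places at which all of
them are ordinary in all degrees. -/
def OrdinaryPrimes : Prop :=
  ∀ (s : List T.V) (S : Set T.Pl), S.Finite → ∃ p, p ∉ S ∧ ∀ X ∈ s, T.good p X ∧
    ∀ i, T.slopes p X i = T.hodge X i

/-- Q1: for every projective variety and every degree there are infinitely many places at which the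
intersection cohomology is ordinary. -/
def Q1 : Prop :=
  ∀ (Y : T.P) (n : ℕ) (S : Set T.Pl), S.Finite → ∃ p, p ∉ S ∧ T.ihGood p Y n ∧
    T.ihSlopes p Y n = T.ihHodge Y n

/-- The generating function of the slopes. -/
noncomputable def np (p : T.Pl) (X : T.V) : K0[X] := poly (2 * T.dim X) (T.slopes p X)

/-- The generating function of the Hodge numbers. -/
noncomputable def hp (X : T.V) : K0[X] := poly (2 * T.dim X) (T.hodge X)

variable {T}

lemma coeff_sub {p : T.Pl} {X : T.V} (h : T.good p X) (i : ℕ) (a : ℚ) :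
    ((T.np p X - T.hp X).coeff i).coeff a =
      ((T.slopes p X i).count a : ℤ) - (T.hodge X i).count a := by
  unfold np hp
  rw [Polynomial.coeff_sub, poly_coeff, poly_coeff]
  by_cases hi : i ≤ 2 * T.dim X
  · rw [if_pos hi, if_pos hi]
    have e : ∀ x y : K0, (x - y).coeff a = x.coeff a - y.coeff a := by
      intro x y
      have : (x - y + y).coeff a = (x - y).coeff a + y.coeff a := by
        rw [AddMonoidAlgebra.coeff_add, Finsupp.add_apply]
      rw [sub_add_cancel] at this
      rw [this]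
      ring
    rw [e, mpoly_coeff, mpoly_coeff]
  · rw [if_neg hi, if_neg hi, T.slopes_zero p X i h (by omega), T.hodge_zero X i (by omega)]
    simp

lemma even_iff {p : T.Pl} {X : T.V} (h : T.good p X) :
    (2 : K0[X]) ∣ T.np p X - T.hp X ↔
      ∀ i a, (T.slopes p X i).count a ≡ (T.hodge X i).count a [MOD 2] := by
  rw [dvdA]
  constructor
  · intro h1 i a
    have h2 := (dvd0 _).1 (h1 i) a
    rw [coeff_sub h] at h2
    have h3 : ((T.hodge X i).count a : ℤ) ≡ ((T.slopes p X i).count a : ℤ) [ZMOD 2] :=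
      (Int.modEq_iff_dvd).2 h2
    exact (Int.natCast_modEq_iff.1 h3).symm
  · intro h1 i
    rw [dvd0]
    intro a
    rw [coeff_sub h]
    have h3 := Int.natCast_modEq_iff.2 (h1 i a).symm
    exact (Int.modEq_iff_dvd).1 h3

lemma natDegree_poly (n : ℕ) (S : ℕ → Multiset ℚ) : (poly n S).natDegree ≤ n := by
  rw [natDegree_le_iff_coeff_eq_zero]
  intro i hi
  rw [poly_coeff, if_neg (by omega)]

lemma natDegree_red {F : K0[X]} {n : ℕ} (h : F.natDegree ≤ n) : (red F).natDegree ≤ n := by
  unfold red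
  rw [coe_mapRingHom]
  exact natDegree_map_le.trans h

lemma combine₀ (A B : T.V) (hd : T.dim A ≠ T.dim B) :
    ∃ Y, ∀ p, T.good p Y → T.good p A ∧ T.good p B ∧
      ((2 : K0[X]) ∣ T.np p Y - T.hp Y →
        (2 : K0[X]) ∣ T.np p A - T.hp A ∧ (2 : K0[X]) ∣ T.np p B - T.hp B) := by
  obtain ⟨N, hN1, hN2⟩ : ∃ N, T.bound A B ≤ N ∧ 2 * T.dim A + 2 * T.dim B + 2 ≤ N :=
    ⟨max (T.bound A B) (2 * T.dim A + 2 * T.dim B + 2), le_max_left _ _, le_max_right _ _⟩
  refine ⟨T.blow N A B, fun p hp => ?_⟩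
  obtain ⟨hA, hB⟩ := T.good_blow p N A B hN1 hp
  refine ⟨hA, hB, fun h => ?_⟩
  have h1 : T.np p (T.blow N A B) - T.hp (T.blow N A B) =
      (T.np p A - T.hp A) * LL (N - T.dim A - 1) + (T.np p B - T.hp B) * LL (N - T.dim B - 1) := by
    unfold np SlopeTheory.hp
    rw [T.slopes_blow p N A B hN1 hp, T.hodge_blow N A B hN1]
    ring
  rw [h1, ← red_eq_zero, map_add, map_mul, map_mul] at h
  have hdeg : ∀ C, (red (T.np p C - T.hp C)).natDegree ≤ 2 * T.dim C := by
    intro C
    refine natDegree_red ((natDegree_sub_le _ _).trans (max_le ?_ ?_))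
    · exact natDegree_poly _ _
    · exact natDegree_poly _ _
  obtain ⟨h2, h3⟩ := decode _ _ (T.dim A) (T.dim B) (N - T.dim A - 1) (N - T.dim B - 1)
    (hdeg A) (hdeg B) (by omega) (by omega) (by omega) h
  exact ⟨(red_eq_zero _).1 h2, (red_eq_zero _).1 h3⟩

lemma combine (A B : T.V) :
    ∃ Y, ∀ p, T.good p Y → T.good p A ∧ T.good p B ∧
      ((2 : K0[X]) ∣ T.np p Y - T.hp Y →
        (2 : K0[X]) ∣ T.np p A - T.hp A ∧ (2 : K0[X]) ∣ T.np p B - T.hp B) := by
  by_cases hd : T.dim A = T.dim B
  · obtain ⟨Y, hY⟩ := combine₀ A (T.line B) (by rw [T.dim_line]; omega)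
    refine ⟨Y, fun p hp => ?_⟩
    obtain ⟨h1, h2, h3⟩ := hY p hp
    refine ⟨h1, T.good_line p B h2, fun h => ?_⟩
    obtain ⟨h4, h5⟩ := h3 h
    refine ⟨h4, ?_⟩
    have h6 : T.np p (T.line B) - T.hp (T.line B) = (T.np p B - T.hp B) * (1 + L) := by
      unfold np SlopeTheory.hp
      rw [T.slopes_line p B h2, T.hodge_line B]
      ring
    rw [h6, ← red_eq_zero, map_mul] at h5
    rw [← red_eq_zero]
    exact (mul_eq_zero.1 h5).resolve_right red_one_add_L_ne
  · exact combine₀ A B hd

lemma boost (k : ℕ) : ∀ X : T.V, ∃ Y, ∀ p, T.good p Y → T.good p X ∧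
    ((2 : K0[X]) ∣ T.np p Y - T.hp Y → (2 : K0[X]) ^ (k + 1) ∣ T.np p X - T.hp X) := by
  induction k with
  | zero =>
    intro X
    exact ⟨X, fun p hp => ⟨hp, fun h => by simpa using h⟩⟩
  | succ k ih =>
    intro X
    obtain ⟨Y₁, h₁⟩ := ih X
    obtain ⟨Y₂, h₂⟩ := ih (T.hilb X)
    obtain ⟨Y, hY⟩ := combine Y₁ Y₂
    refine ⟨Y, fun p hp => ?_⟩
    obtain ⟨a1, a2, a3⟩ := hY p hp
    obtain ⟨b1, b2⟩ := h₁ p a1
    obtain ⟨c1, c2⟩ := h₂ p a2
    refine ⟨b1, fun h => ?_⟩
    obtain ⟨d1, d2⟩ := a3 h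
    have e1 := b2 d1
    have e2 := c2 d2
    have f1 := T.slopes_hilb p X b1
    have f2 := T.hodge_hilb X
    change 2 * T.np p (T.hilb X) = T.np p X ^ 2 + psi (T.np p X) +
      2 * (LL (T.dim X - 1) * T.np p X) at f1
    change 2 * T.hp (T.hilb X) = T.hp X ^ 2 + psi (T.hp X) +
      2 * (LL (T.dim X - 1) * T.hp X) at f2
    have key := step (S := K0[X]) 2 (mem_nonZeroDivisors_of_ne_zero (by exact_mod_cast two_ne))
      psi 1 (fun d hd => by
        rw [mul_one] at hd
        exact_mod_cast dvd_of_psi (by exact_mod_cast hd)) (k + 1) (by omega)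
      (T.np p X) (T.hp X)
      (T.np p (T.hilb X) - LL (T.dim X - 1) * T.np p X)
      (T.hp (T.hilb X) - LL (T.dim X - 1) * T.hp X)
      (by exact_mod_cast e1)
      (by
        have g1 : T.np p (T.hilb X) - LL (T.dim X - 1) * T.np p X -
            (T.hp (T.hilb X) - LL (T.dim X - 1) * T.hp X) =
            (T.np p (T.hilb X) - T.hp (T.hilb X)) -
              LL (T.dim X - 1) * (T.np p X - T.hp X) := by ring
        rw [g1]
        refine dvd_sub (by exact_mod_cast e2) (Dvd.dvd.mul_left (by exact_mod_cast e1) _))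
      (by push_cast; linear_combination f1)
      (by push_cast; linear_combination f2)
    exact_mod_cast key

/-- A variety which controls finitely many ones. -/
lemma family (k : ℕ) (s : List T.V) : ∃ Y, ∀ p, T.good p Y → ∀ X ∈ s, T.good p X ∧
    ((2 : K0[X]) ∣ T.np p Y - T.hp Y → (2 : K0[X]) ^ (k + 1) ∣ T.np p X - T.hp X) := by
  induction s with
  | nil =>
    obtain ⟨E, _⟩ := T.bad ∅ Set.finite_empty
    exact ⟨E, fun p _ X hX => absurd hX List.not_mem_nil⟩
  | cons A s ih =>
    obtain ⟨Y₁, h₁⟩ := ih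
    obtain ⟨Y₂, h₂⟩ := boost k A
    obtain ⟨Y, hY⟩ := combine Y₁ Y₂
    refine ⟨Y, fun p hp X hX => ?_⟩
    obtain ⟨a1, a2, a3⟩ := hY p hp
    rcases List.mem_cons.1 hX with rfl | hX
    · exact ⟨(h₂ p a2).1, fun h => (h₂ p a2).2 (a3 h).2⟩
    · exact ⟨(h₁ p a1 X hX).1, fun h => (h₁ p a1 X hX).2 (a3 h).1⟩

lemma ordinary_of_dvd {p : T.Pl} {X : T.V} (h : T.good p X) (k : ℕ)
    (hk : ∀ i, i ≤ 2 * T.dim X → (T.hodge X i).card < 2 ^ (k + 1))
    (hd : (2 : K0[X]) ^ (k + 1) ∣ T.np p X - T.hp X) (i : ℕ) :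
    T.slopes p X i = T.hodge X i := by
  classical
  by_cases hi : i ≤ 2 * T.dim X
  · ext a
    have h1 := coeff_dvd hd i a
    rw [coeff_sub h] at h1
    have h2 := Multiset.count_le_card a (T.slopes p X i)
    have h3 := Multiset.count_le_card a (T.hodge X i)
    have h4 := hk i hi
    rw [T.card_slopes p X i h] at h2
    have h5 : ((2 ^ (k + 1) : ℕ) : ℤ) = 2 ^ (k + 1) := by push_cast; rfl
    have h6 : ((T.slopes p X i).count a : ℤ) - (T.hodge X i).count a = 0 := by
      refine Int.eq_zero_of_abs_lt_dvd h1 ?_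
      rw [← h5, abs_lt]
      constructor <;> omega
    omega
  · rw [T.slopes_zero p X i h (by omega), T.hodge_zero X i (by omega)]

theorem main (M : ℕ) (hM : 2 ∣ M) : T.CongruencePrime M ↔ T.OrdinaryPrimes := by
  constructor
  · intro h s S hS
    obtain ⟨k, hk⟩ : ∃ k, ∀ X ∈ s, ∀ i, i ≤ 2 * T.dim X → (T.hodge X i).card < 2 ^ (k + 1) := by
      have h1 : ∀ X : T.V, ∃ b, ∀ i, i ≤ 2 * T.dim X → (T.hodge X i).card ≤ b := by
        intro X
        refine ⟨∑ i ∈ Finset.range (2 * T.dim X + 1), (T.hodge X i).card, fun i hi => ?_⟩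
        exact Finset.single_le_sum (f := fun i => (T.hodge X i).card) (fun _ _ => Nat.zero_le _)
          (Finset.mem_range.2 (by omega))
      choose b hb using h1
      refine ⟨(s.map b).sum, fun X hX i hi => ?_⟩
      have h2 : b X ≤ (s.map b).sum := List.single_le_sum (fun _ _ => Nat.zero_le _) _
        (List.mem_map_of_mem hX)
      calc (T.hodge X i).card ≤ b X := hb X i hi
        _ ≤ (s.map b).sum := h2
        _ < 2 ^ (s.map b).sum := Nat.lt_two_pow_self
        _ ≤ 2 ^ ((s.map b).sum + 1) := Nat.pow_le_pow_right (by norm_num) (by omega)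
    obtain ⟨E, hE⟩ := T.bad S hS
    obtain ⟨Y, hY⟩ := family k (E :: s)
    obtain ⟨p, hp1, hp2⟩ := h Y
    have h2 : (2 : K0[X]) ∣ T.np p Y - T.hp Y :=
      (even_iff hp1).2 fun i a => (hp2 i a).of_dvd hM
    refine ⟨p, ?_, fun X hX => ?_⟩
    · intro hpS
      exact hE p hpS (hY p hp1 E List.mem_cons_self).1
    · obtain ⟨h3, h4⟩ := hY p hp1 X (List.mem_cons_of_mem _ hX)
      exact ⟨h3, ordinary_of_dvd h3 k (hk X hX) (h4 h2)⟩
  · intro h X
    obtain ⟨p, _, hp⟩ := h (X :: List.nil) ∅ Set.finite_empty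
    obtain ⟨h1, h2⟩ := hp X (List.mem_singleton.2 rfl)
    exact ⟨p, h1, fun i a => by rw [h2 i]⟩

theorem toQ1 (h : T.OrdinaryPrimes) : T.Q1 := by
  intro Y n S hS
  obtain ⟨X, S', hS', hX⟩ := T.resolution Y
  obtain ⟨p, hp1, hp2⟩ := h (X :: List.nil) (S ∪ S') (hS.union hS')
  obtain ⟨h1, h2⟩ := hp2 X (List.mem_singleton.2 rfl)
  exact ⟨p, fun hp => hp1 (Or.inl hp), hX p (fun hp => hp1 (Or.inr hp)) h1 h2 n⟩

end SlopeTheory

end Pool.Agent.U152.OP
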